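import Mathlib
import Pool.Agent.TH796.Fin.Fin8

set_option autoImplicit false

/-!
# The numbers of blocks of digits of `π + e` and `π e` in two independent bases

Let `S` be an infinite set of integers. For a set `A` of bases let `K_A` be the field generated by all
real numbers with `O(n)` different blocks of `n` digits, `n ∈ S`, in some base of `A`.

(1) If `A` and `B` generate subgroups of the multiplicative group of `ℚ` with trivial intersection,
then, for `K = K_A` or for `K = K_B`, one of `π + e`, `π e` is transcendental over `K`; more generally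
this holds, for every real `t` in place of `π`, for one of `x t + y e + w`, `t e ^ k`, where `k ≥ 1` and
where `x`, `y`, `w` are algebraic over `K` with `x, y ≠ 0`, and for one of `t ^ i e ^ j`, `t ^ k e ^ l`,
where `i l ≠ j k` and `t ≠ 0`. Instead of `e` one can take `π`, the logarithm of a rational number or any
transcendental real number which is not a U-number.

(2) For every `S` all the bases `b`, apart from the bases multiplicatively dependent on one base `c`
(which does not depend on `t`), have the property of (1), for the field generated by the real numbers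
with `O(n)` different blocks of `n` digits, `n ∈ S`, in some base multiplicatively dependent on `b`.

(3) If `b` and `c` are multiplicatively independent, then the largest one of the four numbers of
different blocks of `n` digits of `π + e` and of `π e` in the bases `b` and `c`, divided by `n`, tends to
infinity; and the same holds for the numbers `t + z`, `t z` in base `b` and `t' + z`, `t' z` in base `c`,
for all real `t`, `t'`.
-/

namespace Pool.Agent.Results.MP_a49cf6_nt.BlockComplexity

open Filter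

/-- the digit of index `n + 1` after the point in the base `b` expansion of `x` -/
noncomputable def digit (b : ℕ) (x : ℝ) (n : ℕ) : ℤ := ⌊x * (b : ℝ) ^ (n + 1)⌋ % (b : ℤ)

/-- the number of different blocks of `n` consecutive digits (after the point) of `x` in base `b` -/
noncomputable def blocks (b : ℕ) (x : ℝ) (n : ℕ) : ℕ :=
  (Set.range fun i => fun j : Fin n => digit b x (i + j)).ncard

/-- the field generated by all real numbers which in some base `b ∈ A` have at most `C n` different
blocks of `n` digits for all `n ∈ S`; `b` and `C` may depend on the number. It contains `ℚ`. -/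
noncomputable def lowField (S A : Set ℕ) : Subfield ℝ :=
  Subfield.closure {x | ∃ b ∈ A, ∃ C : ℝ, ∀ n ∈ S, (blocks b x n : ℝ) ≤ C * n}

/-- the subgroup of the multiplicative group of `ℚ` generated by `A` -/
def group (A : Set ℕ) : Subgroup ℚˣ := Subgroup.closure {u | ∃ b ∈ A, ((u : ℚˣ) : ℚ) = b}

/-- multiplicatively independent bases -/
def Independent (b c : ℕ) : Prop := ∀ k l : ℕ, b ^ k = c ^ l → k = 0 ∧ l = 0

/-- the height of an integer polynomial: the largest absolute value of a coefficient -/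
def height (P : Polynomial ℤ) : ℕ := P.support.sup fun i => (P.coeff i).natAbs

/-- Mahler's U-numbers: for some degree `d` and every exponent `w` there are infinitely many
`P ∈ ℤ[X]` of degree at most `d` with `0 < |P(x)| ≤ (height P) ^ (-w)` -/
def UNumber (x : ℝ) : Prop :=
  ∃ d : ℕ, ∀ w : ℕ, {P : Polynomial ℤ | P.natDegree ≤ d ∧ 0 < |Polynomial.aeval x P| ∧
    |Polynomial.aeval x P| * (height P : ℝ) ^ w ≤ 1}.Infinite

/-- `z` is `e`, `π`, the logarithm of a positive rational number `≠ 1` or a transcendental real number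
which is not a U-number -/
def Good (z : ℝ) : Prop :=
  z = Real.exp 1 ∨ z = Real.pi ∨ (∃ q : ℚ, 0 < q ∧ q ≠ 1 ∧ z = Real.log q) ∨
    (Transcendental ℚ z ∧ ¬ UNumber z)

/-- The pairs of functions of `t` and `z`: for every real `t` one of `x t + y z + w`, `t z ^ k` is
transcendental over `K`, if `k ≥ 1` and `x`, `y`, `w` are algebraic over `K` and `x, y ≠ 0`; and for every
real `t ≠ 0` one of `t ^ i z ^ j`, `t ^ k z ^ l` is transcendental over `K`, if `i`, `j`, `k`, `l` are integers
with `i l ≠ j k`. -/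
def Pairs (K : Subfield ℝ) (z : ℝ) : Prop :=
  (∀ t x y w : ℝ, IsAlgebraic K x → IsAlgebraic K y → IsAlgebraic K w → x ≠ 0 → y ≠ 0 →
    ∀ k : ℕ, 1 ≤ k → Transcendental K (x * t + y * z + w) ∨ Transcendental K (t * z ^ k)) ∧
  (∀ t : ℝ, t ≠ 0 → ∀ i j k l : ℤ, i * l ≠ j * k →
    Transcendental K (t ^ i * z ^ j) ∨ Transcendental K (t ^ k * z ^ l))

open Polynomial in
/-- `z` is algebraic if a linear form in `t`, `z` and `t z ^ k` are -/
theorem alg_lin_pow {K : Subfield ℝ} {z : ℝ} (t x y w : ℝ) (hx : IsAlgebraic K x)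
    (hy : IsAlgebraic K y) (hw : IsAlgebraic K w) (hy0 : y ≠ 0) (k : ℕ)
    (h1 : IsAlgebraic K (x * t + y * z + w)) (h2 : IsAlgebraic K (t * z ^ k)) :
    IsAlgebraic K z := by
  let E := algebraicClosure K ℝ
  let x' : E := ⟨x, mem_algebraicClosure_iff.2 hx⟩
  let y' : E := ⟨y, mem_algebraicClosure_iff.2 hy⟩
  let w' : E := ⟨w, mem_algebraicClosure_iff.2 hw⟩
  let u' : E := ⟨x * t + y * z + w, mem_algebraicClosure_iff.2 h1⟩
  let v' : E := ⟨t * z ^ k, mem_algebraicClosure_iff.2 h2⟩
  have hz : IsAlgebraic E z := by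
    refine ⟨C (-y') * X ^ (k + 1) + C (u' - w') * X ^ k - C (x' * v'), ?_, ?_⟩
    · intro h0
      have h3 := congrArg (fun P => P.coeff (k + 1)) h0
      simp only [coeff_add, coeff_sub, coeff_C_mul, coeff_X_pow, coeff_zero, coeff_C_succ,
        if_true, mul_one, sub_zero] at h3
      rw [if_neg (by omega), mul_zero, add_zero, neg_eq_zero] at h3
      exact hy0 (congrArg (fun a : E => (a : ℝ)) h3)
    · have e1 : (algebraMap E ℝ) x' = x := rfl
      have e2 : (algebraMap E ℝ) y' = y := rfl
      have e3 : (algebraMap E ℝ) w' = w := rfl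
      have e4 : (algebraMap E ℝ) u' = x * t + y * z + w := rfl
      have e5 : (algebraMap E ℝ) v' = t * z ^ k := rfl
      simp only [map_add, map_sub, map_mul, aeval_C, aeval_X_pow, map_neg, e1, e2, e3, e4, e5]
      ring
  exact hz.restrictScalars K

theorem isAlg_zpow {K : Subfield ℝ} {x : ℝ} (h : IsAlgebraic K x) (n : ℤ) :
    IsAlgebraic K (x ^ n) := by
  rcases n with n | n
  · rw [Int.ofNat_eq_natCast, zpow_natCast]
    exact h.pow n
  · rw [zpow_negSucc]
    exact (h.pow _).inv

theorem pairs_of {K : Subfield ℝ} {z : ℝ} (hz : Transcendental K z) : Pairs K z := by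
  have hz0 : z ≠ 0 := by
    rintro rfl
    exact hz isAlgebraic_zero
  refine ⟨fun t x y w hx hy hw hx0 hy0 k hk => ?_, fun t ht i j k l h => ?_⟩
  · by_contra hcon
    unfold Transcendental at hcon
    push Not at hcon
    obtain ⟨h1, h2⟩ := hcon
    apply hz
    exact alg_lin_pow t x y w hx hy hw hy0 k h1 h2
  · by_contra hcon
    unfold Transcendental at hcon
    push Not at hcon
    obtain ⟨h1, h2⟩ := hcon
    apply hz
    -- `(t ^ i z ^ j) ^ (-k) (t ^ k z ^ l) ^ i = z ^ (i l - j k)`
    have e : z ^ (i * l - j * k) = (t ^ i * z ^ j) ^ (-k) * (t ^ k * z ^ l) ^ i := by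
      rw [mul_zpow, mul_zpow, ← zpow_mul, ← zpow_mul, ← zpow_mul, ← zpow_mul]
      have e1 : t ^ (i * -k) * z ^ (j * -k) * (t ^ (k * i) * z ^ (l * i)) =
          (t ^ (i * -k) * t ^ (k * i)) * (z ^ (j * -k) * z ^ (l * i)) := by ring
      rw [e1, ← zpow_add₀ ht, ← zpow_add₀ hz0]
      have e2 : i * -k + k * i = 0 := by ring
      have e3 : j * -k + l * i = i * l - j * k := by ring
      rw [e2, e3, zpow_zero, one_mul]
    have h3 : IsAlgebraic K (z ^ (i * l - j * k)) := by
      rw [e]
      exact (isAlg_zpow h1 _).mul (isAlg_zpow h2 _)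
    have h4 : i * l - j * k ≠ 0 := sub_ne_zero.2 h
    rcases lt_or_gt_of_ne h4 with h5 | h5
    · obtain ⟨m, hm⟩ : ∃ m : ℕ, i * l - j * k = -(m : ℤ) := ⟨(-(i * l - j * k)).toNat, by omega⟩
      have hm0 : 0 < m := by omega
      rw [hm, zpow_neg, zpow_natCast] at h3
      have h6 : IsAlgebraic K (z ^ m) := by
        have := h3.inv
        rwa [inv_inv] at this
      exact IsAlgebraic.of_pow hm0 h6
    · obtain ⟨m, hm⟩ : ∃ m : ℕ, i * l - j * k = (m : ℤ) := ⟨(i * l - j * k).toNat, by omega⟩
      have hm0 : 0 < m := by omega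
      rw [hm, zpow_natCast] at h3
      exact IsAlgebraic.of_pow hm0 h3

theorem mem_lowField {S A : Set ℕ} {b : ℕ} (hb : b ∈ A) {x : ℝ} {C : ℝ}
    (h : ∀ n ∈ S, (blocks b x n : ℝ) ≤ C * n) : x ∈ lowField S A :=
  Subfield.subset_closure ⟨b, hb, C, h⟩

theorem not_transc {K : Subfield ℝ} {x : ℝ} (h : x ∈ K) : ¬ Transcendental K x := by
  intro h1
  exact h1 (isAlgebraic_algebraMap (⟨x, h⟩ : K))

theorem Pairs.sum_prod {K : Subfield ℝ} {z : ℝ} (h : Pairs K z) (t : ℝ) :
    Transcendental K (t + z) ∨ Transcendental K (t * z) := by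
  have h1 := h.1 t 1 1 0 isAlgebraic_one isAlgebraic_one isAlgebraic_zero one_ne_zero one_ne_zero
    1 le_rfl
  rwa [one_mul, one_mul, add_zero, pow_one] at h1

/-- **The digits of `π + e` and `π e`.** See the text at the beginning of the file. -/
theorem result (z : ℝ) (hz : Good z) :
    (∀ S : Set ℕ, S.Infinite → ∀ A B : Set ℕ, (∀ b ∈ A, 2 ≤ b) → (∀ b ∈ B, 2 ≤ b) →
      group A ⊓ group B = ⊥ → Pairs (lowField S A) z ∨ Pairs (lowField S B) z) ∧
    (∀ S : Set ℕ, S.Infinite → ∃ c : ℕ, 2 ≤ c ∧ ∀ b : ℕ, 2 ≤ b → Independent b c →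
      Pairs (lowField S {d | 2 ≤ d ∧ ¬ Independent d b}) z) ∧
    (∀ b c : ℕ, 2 ≤ b → 2 ≤ c → Independent b c →
      (∀ t t' : ℝ, Tendsto (fun n : ℕ => ((max (max (blocks b (t + z) n) (blocks b (t * z) n))
          (max (blocks c (t' + z) n) (blocks c (t' * z) n)) : ℕ) : ℝ) / n) atTop atTop) ∧
      Tendsto (fun n : ℕ => ((max
        (max (blocks b (Real.pi + Real.exp 1) n) (blocks b (Real.pi * Real.exp 1) n))
        (max (blocks c (Real.pi + Real.exp 1) n) (blocks c (Real.pi * Real.exp 1) n)) : ℕ) : ℝ) / n)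
        atTop atTop) := by
  have meas : ∀ z : ℝ, Good z → Pool.Agent.TH456.TM.MeasT (z : ℂ) := by
    intro z hz
    rcases hz with h | h | h | ⟨h1, h2⟩
    · exact Pool.Agent.TH796.AL.Ai.measT_of (Or.inl h)
    · exact Pool.Agent.TH796.AL.Ai.measT_of (Or.inr (Or.inl h))
    · exact Pool.Agent.TH796.AL.Ai.measT_of (Or.inr (Or.inr h))
    · exact Pool.Agent.TH796.AL.Ai.meas_of_not_unumber h1 h2
  have h1 : ∀ z : ℝ, Good z → ∀ S : Set ℕ, S.Infinite → ∀ A B : Set ℕ, (∀ b ∈ A, 2 ≤ b) →
      (∀ b ∈ B, 2 ≤ b) → group A ⊓ group B = ⊥ →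
      Pairs (lowField S A) z ∨ Pairs (lowField S B) z := by
    intro z hz S hS A B hA hB hAB
    have ht : Transcendental ℚ z := Pool.Agent.TH796.AL.Alg.transc_of_measT (meas z hz)
    have hU : ¬ Pool.Agent.TH796.AL.Ai.UNumber z := Pool.Agent.TH796.AL.Ai.not_unumber (meas z hz)
    rcases Pool.Agent.TH796.AL.Alg.free_pair ht hU hA hB hAB hS with h | h
    · exact Or.inl (pairs_of h.1)
    · exact Or.inr (pairs_of h.1)
  have h2 : ∀ z : ℝ, Good z → ∀ b c : ℕ, 2 ≤ b → 2 ≤ c → Independent b c → ∀ t t' : ℝ,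
      Tendsto (fun n : ℕ => ((max (max (blocks b (t + z) n) (blocks b (t * z) n))
          (max (blocks c (t' + z) n) (blocks c (t' * z) n)) : ℕ) : ℝ) / n) atTop atTop := by
    intro z hz b c hb hc hbc t t'
    by_contra hcon
    rw [tendsto_atTop] at hcon
    push Not at hcon
    obtain ⟨C, hC⟩ := hcon
    set S : Set ℕ := {n : ℕ | 1 ≤ n ∧ ((max (max (blocks b (t + z) n) (blocks b (t * z) n))
          (max (blocks c (t' + z) n) (blocks c (t' * z) n)) : ℕ) : ℝ) / n < C} with hSdef
    have hS : S.Infinite := by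
      rw [← Nat.frequently_atTop_iff_infinite]
      exact (hC.and_eventually (eventually_ge_atTop 1)).mono fun n hn => ⟨hn.2, hn.1⟩
    have hle : ∀ n ∈ S, ((max (max (blocks b (t + z) n) (blocks b (t * z) n))
          (max (blocks c (t' + z) n) (blocks c (t' * z) n)) : ℕ) : ℝ) ≤ C * n := by
      rintro n ⟨hn1, hn2⟩
      have hn0 : (0:ℝ) < n := by exact_mod_cast hn1
      exact ((div_lt_iff₀ hn0).1 hn2).le
    have ha : ∀ n ∈ S, (blocks b (t + z) n : ℝ) ≤ C * n := fun n hn =>
      le_trans (by exact_mod_cast (le_max_left _ _).trans (le_max_left _ _)) (hle n hn)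
    have hb' : ∀ n ∈ S, (blocks b (t * z) n : ℝ) ≤ C * n := fun n hn =>
      le_trans (by exact_mod_cast (le_max_right _ _).trans (le_max_left _ _)) (hle n hn)
    have hc' : ∀ n ∈ S, (blocks c (t' + z) n : ℝ) ≤ C * n := fun n hn =>
      le_trans (by exact_mod_cast (le_max_left _ _).trans (le_max_right _ _)) (hle n hn)
    have hd : ∀ n ∈ S, (blocks c (t' * z) n : ℝ) ≤ C * n := fun n hn =>
      le_trans (by exact_mod_cast (le_max_right _ _).trans (le_max_right _ _)) (hle n hn)
    rcases h1 z hz S hS {b} {c} (by simpa using hb) (by simpa using hc)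
      (Pool.Agent.TH796.AL.Ai.group_inf hb hc hbc) with h | h
    · rcases h.sum_prod t with h3 | h3
      · exact not_transc (mem_lowField (Set.mem_singleton b) ha) h3
      · exact not_transc (mem_lowField (Set.mem_singleton b) hb') h3
    · rcases h.sum_prod t' with h3 | h3
      · exact not_transc (mem_lowField (Set.mem_singleton c) hc') h3
      · exact not_transc (mem_lowField (Set.mem_singleton c) hd) h3
  refine ⟨h1 z hz, fun S hS => ?_, fun b c hb hc hbc => ⟨h2 z hz b c hb hc hbc,
    h2 (Real.exp 1) (Or.inl rfl) b c hb hc hbc Real.pi Real.pi⟩⟩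
  have ht : Transcendental ℚ z := Pool.Agent.TH796.AL.Alg.transc_of_measT (meas z hz)
  have hU : ¬ Pool.Agent.TH796.AL.Ai.UNumber z := Pool.Agent.TH796.AL.Ai.not_unumber (meas z hz)
  obtain ⟨c, hc, h⟩ := Pool.Agent.TH796.Fin.free_cls ht hU hS
  exact ⟨c, hc, fun b hb hbc => pairs_of (h b hb hbc).1⟩

end Pool.Agent.Results.MP_a49cf6_nt.BlockComplexity
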