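import Pool.Agent.L5helper14.PiF.Main

/-!
# `π + e`, `π e` and the values of the error function

We consider the numbers `π e^r` (`r` rational), `π + c e^s` (`c > 0` and `s ≠ 0` rational) and
`E(s, x) = √(π x) e^s erfc(√x) = 2 √x e^s ∫_{√x}^∞ e^(-t²) dt` (`s` and `x > 0` rational).

* At most one of all these numbers is algebraic. Moreover any two of them (with different parameters) have a joint
  transcendence measure of polynomial type: nonzero integer polynomials `P`, `Q` of degree at most `D` with coefficients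
  at most `H` are not both smaller than `C H^(-κ)` at the two numbers.
* For different `x_1, …, x_n` the field generated by `E(s_1, x_1), …, E(s_n, x_n)` has transcendence degree at least `n - 1`,
  at least `n` if one of the numbers `π e^r`, `π + c e^s` is added, and at least `n + 1` if two of them are added.
* If `π + e` or `π e` is algebraic (for instance rational), then the numbers `E(s_1, x_1), …, E(s_n, x_n)` are
  algebraically independent for all different `x_1, …, x_n`, and each of them has a transcendence measure of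
  polynomial type, so that it is not a Liouville number and not a `U`-number.

The proofs combine the measure of algebraic independence for the values of the E-functions `e^z` and
`∑ (-z)^m / (m! (m + 1/2))` of the starting library (`Pool.Agent.N743.SS.measM_EA`, `Pool.Agent.R352.T.EA_alg_Q`) with
polynomial relations which remain nontrivial for all algebraic values of the two numbers.
-/

set_option autoImplicit false

namespace Pool.Agent.Results.MP_a49cf6_nt.ErrorFunctionCompanions

open Polynomial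
open Pool.Agent.L5helper14.PiF

theorem result :
    (∀ p q : Par, p.Ok → q.Ok → p ≠ q →
      (Transcendental ℚ p.val ∨ Transcendental ℚ q.val) ∧
      ∀ D : ℕ, ∃ κ C : ℝ, 0 < κ ∧ 0 < C ∧ ∀ P Q : ℤ[X], P ≠ 0 → Q ≠ 0 → P.natDegree ≤ D → Q.natDegree ≤ D →
        ∀ H : ℝ, (∀ k, |((P.coeff k : ℤ) : ℝ)| ≤ H) → (∀ k, |((Q.coeff k : ℤ) : ℝ)| ≤ H) →
          C * H ^ (-κ) ≤ max |aeval p.val P| |aeval q.val Q|) ∧
    (∀ (n : ℕ) (s x : Fin n → ℚ), Function.Injective x → (∀ i, 0 < x i) →
      (n : Cardinal) ≤ Algebra.trdeg ℚ (IntermediateField.adjoin ℚ (EV s x)) + 1 ∧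
      (∀ p : Par, p.Lin →
        (n : Cardinal) ≤ Algebra.trdeg ℚ (IntermediateField.adjoin ℚ (insert ((p.val : ℝ) : ℂ) (EV s x)))) ∧
      ∀ p q : Par, p.Lin → q.Lin → p.Ok → q.Ok → p ≠ q →
        ((n + 1 : ℕ) : Cardinal) ≤ Algebra.trdeg ℚ (IntermediateField.adjoin ℚ
          (insert ((p.val : ℝ) : ℂ) (insert ((q.val : ℝ) : ℂ) (EV s x))))) ∧
    (IsAlgebraic ℚ (Real.pi + Real.exp 1) ∨ IsAlgebraic ℚ (Real.pi * Real.exp 1) →
      (∀ (n : ℕ) (s x : Fin n → ℚ), Function.Injective x → (∀ i, 0 < x i) →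
        AlgebraicIndependent ℚ (fun i => err (s i) (x i))) ∧
      ∀ (s x : ℚ), 0 < x → ∀ D : ℕ, ∃ κ C : ℝ, 0 < κ ∧ 0 < C ∧ ∀ P : ℤ[X], P ≠ 0 → P.natDegree ≤ D →
        ∀ H : ℝ, (∀ k, |((P.coeff k : ℤ) : ℝ)| ≤ H) → C * H ^ (-κ) ≤ |aeval (err s x) P|) := by
  refine ⟨fun p q hp hq hpq => ⟨trans_or (joint p q hp hq hpq), joint p q hp hq hpq⟩, ?_, ?_⟩
  · intro n s x hinj hx
    refine ⟨?_, fun p hl => card_of_rk (rk_one s x hinj hx p hl), fun p q hl hl' hp hq hpq =>
      card_of_rk (rk_two s x hinj hx p q hl hl' hp hq hpq)⟩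
    have h1 := rk_zero s x hinj hx
    rw [← Pool.Agent.H327R2.SC.toENat_trdeg] at h1
    refine Cardinal.natCast_le_toENat.1 ?_
    rw [map_add, map_one]
    exact h1
  · intro h
    have hp : ∃ p : Par, p.Ok ∧ p.Lin ∧ IsAlgebraic ℚ p.val := by
      rcases h with h | h
      · refine ⟨Par.sum 1 1, ⟨one_pos, one_ne_zero⟩, trivial, ?_⟩
        show IsAlgebraic ℚ (Real.pi + ((1 : ℚ) : ℝ) * Real.exp ((1 : ℚ) : ℝ))
        rwa [Rat.cast_one, one_mul]
      · refine ⟨Par.prod 1, trivial, trivial, ?_⟩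
        show IsAlgebraic ℚ (Real.pi * Real.exp ((1 : ℚ) : ℝ))
        rwa [Rat.cast_one]
    obtain ⟨p, hok, hl, hp⟩ := hp
    refine ⟨fun n s x hinj hx => indep_of_alg s x hinj hx p hl hp, fun s x hx D => ?_⟩
    refine meas_of_alg (joint p (Par.erf s x) hok hx ?_) hp D
    rintro rfl
    exact hl

end Pool.Agent.Results.MP_a49cf6_nt.ErrorFunctionCompanions
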