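import Mathlib
import Pool.Agent.L5helper52.PF.Fld
import Pool.Agent.R473.JC.Pairs

set_option autoImplicit false

/-!
# `e`, `π`, `π + e`, `π e` and numbers whose digits are predicted by small automata

Fix an infinite set `S` of integers and `θ < 1`. A real number is called predictable if in some base
`b`, for every `ε > 0` and all large `N ∈ S`, some finite automaton with at most `N ^ θ` states, which
reads the digits one after the other and predicts each next digit from its state, makes at most
`ε log N` errors on the first `N` digits. The base depends on the number, the automaton on the number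
and on `N`. Rational numbers are predictable, and so are all numbers whose first `N` digits contain only
`o(log N)` digits which are not zero, for instance `∑ 10 ^ (-n!)`.

Let `F` be the field generated by all predictable numbers. Any finitely many elements of `F` have
simultaneous rational approximations of every order. So all transcendental real numbers which are not
U-numbers, for instance `e`, `π` and the logarithms of rational numbers, are transcendental over `F`.
It follows that at most one of `π + e`, `π e` is algebraic over `F`, and that at most one of the numbers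
`π + x e` with `x` algebraic over `F` is.
-/

open Finset

namespace Pool.Agent.Results.MP_a49cf6_nt.PredictableFields

/-- the `i`-th digit of `x` after the point in base `b` -/
noncomputable def digit (b : ℕ) (x : ℝ) (i : ℕ) : ℤ := ⌊x * (b : ℝ) ^ i⌋ % (b : ℤ)

/-- A predictor: a finite automaton with `Q` states, transitions `δ`, initial state `q₀` and
predictions `out`. -/
structure Predictor where
  /-- the number of states -/
  Q : ℕ
  /-- the next state -/
  δ : Fin Q → ℤ → Fin Q
  /-- the initial state -/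
  q₀ : Fin Q
  /-- the prediction -/
  out : Fin Q → ℤ

/-- the state of the predictor after it has read `d 1, …, d n` -/
def Predictor.state (M : Predictor) (d : ℕ → ℤ) : ℕ → Fin M.Q
  | 0 => M.q₀
  | n + 1 => M.δ (M.state d n) (d (n + 1))

/-- the number of errors on the first `N` terms of `d`: the number of `n < N` such that the
prediction made after reading `d 1, …, d n` is not `d (n + 1)` -/
def Predictor.errors (M : Predictor) (d : ℕ → ℤ) (N : ℕ) : ℕ :=
  ((range N).filter fun n => M.out (M.state d n) ≠ d (n + 1)).card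

/-- `x` is predictable: in some base `b ≥ 2`, for every `ε > 0` and all large `N ∈ S`, some predictor
with at most `N ^ θ` states makes at most `ε log N` errors on the first `N` digits of `x` -/
def Predictable (S : Set ℕ) (θ x : ℝ) : Prop :=
  ∃ b : ℕ, 2 ≤ b ∧ ∀ ε : ℝ, 0 < ε → ∃ N₀ : ℕ, ∀ N ∈ S, N₀ ≤ N →
    ∃ M : Predictor, (M.Q : ℝ) ≤ (N : ℝ) ^ θ ∧ (M.errors (digit b x) N : ℝ) ≤ ε * Real.log N

/-- the field generated by all predictable real numbers -/
noncomputable def field (S : Set ℕ) (θ : ℝ) : Subfield ℝ := Subfield.closure {x | Predictable S θ x}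

/-- the height of an integer polynomial: the largest absolute value of a coefficient -/
def height (P : Polynomial ℤ) : ℕ := P.support.sup fun i => (P.coeff i).natAbs

/-- Mahler's U-numbers: for some degree `d` and every exponent `w` there are infinitely many
`P ∈ ℤ[X]` of degree at most `d` with `0 < |P(x)| ≤ (height P) ^ (-w)` -/
def UNumber (x : ℝ) : Prop :=
  ∃ d : ℕ, ∀ w : ℕ, {P : Polynomial ℤ | P.natDegree ≤ d ∧ 0 < |Polynomial.aeval x P| ∧
    |Polynomial.aeval x P| * (height P : ℝ) ^ w ≤ 1}.Infinite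

/-- the number of digits which are not zero among the first `N` digits of `x` in base `b` -/
noncomputable def nonzero (b : ℕ) (x : ℝ) (N : ℕ) : ℕ :=
  ((range N).filter fun n => digit b x (n + 1) ≠ 0).card

theorem state_eq (M : Predictor) (d : ℕ → ℤ) (n : ℕ) :
    M.state d n = Pool.Agent.R473.FP.run M.δ M.q₀ d n := by
  induction n with
  | zero => rfl
  | succ n ih =>
    show M.δ (M.state d n) (d (n + 1)) = M.δ (Pool.Agent.R473.FP.run M.δ M.q₀ d n) (d (n + 1))
    rw [ih]

theorem pred_of {S : Set ℕ} {θ x : ℝ} (h : Predictable S θ x) :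
    Pool.Agent.L5helper52.PF.Pred S θ x := by
  obtain ⟨b, hb, h⟩ := h
  refine ⟨b, hb, fun ε hε => ?_⟩
  obtain ⟨N₀, h⟩ := h ε hε
  refine ⟨N₀, fun N hN hN₀ => ?_⟩
  obtain ⟨M, hQ, hE⟩ := h N hN hN₀
  refine ⟨M.Q, M.δ, M.q₀, M.out, hQ, ?_⟩
  have e : M.errors (digit b x) N = Pool.Agent.R473.FP.errors M.δ M.q₀ M.out
      (Pool.Agent.H831R3.LC.dig x b) N := by
    unfold Predictor.errors Pool.Agent.R473.FP.errors
    congr 1
    refine Finset.filter_congr fun n _ => ?_
    rw [state_eq]
    rfl
  rw [← e]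
  exact hE

theorem sim_field {S : Set ℕ} (hS : S.Infinite) {θ : ℝ} (hθ : θ < 1) :
    Pool.Agent.Q163.LE.SimLiouville (field S θ) := by
  intro s hs w q0
  refine Pool.Agent.L5helper52.PF.sim_pred hS hθ s (fun x hx => ?_) w q0
  exact Subfield.closure_mono (fun y hy => pred_of hy) (hs x hx)

/-- numbers with few digits which are not zero -/
theorem mem_of_nonzero {S : Set ℕ} {θ : ℝ} (hθ : 0 ≤ θ) {x : ℝ} {b : ℕ} (hb : 2 ≤ b)
    (h : ∀ ε : ℝ, 0 < ε → ∃ N₀ : ℕ, ∀ N ∈ S, N₀ ≤ N → (nonzero b x N : ℝ) ≤ ε * Real.log N) :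
    x ∈ field S θ := by
  refine Subfield.subset_closure ⟨b, hb, fun ε hε => ?_⟩
  obtain ⟨N₀, h⟩ := h ε hε
  refine ⟨max N₀ 1, fun N hN hN₀ => ⟨⟨1, fun _ _ => 0, 0, fun _ => 0⟩, ?_, ?_⟩⟩
  · have h1 : (1 : ℝ) ≤ N := by
      have := (le_max_right N₀ 1).trans hN₀
      exact_mod_cast this
    have h2 : (1 : ℝ) ≤ (N : ℝ) ^ θ := Real.one_le_rpow h1 hθ
    simpa using h2
  · have h1 := h N hN ((le_max_left _ _).trans hN₀)
    have e : Predictor.errors ⟨1, fun _ _ => 0, 0, fun _ => 0⟩ (digit b x) N = nonzero b x N := by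
      unfold Predictor.errors nonzero
      congr 1
      refine Finset.filter_congr fun n _ => ?_
      exact ne_comm
    rw [e]
    exact h1

lemma height_le {P : Polynomial ℤ} {H : ℝ} (hH : 0 ≤ H) (h : ∀ j, |(P.coeff j : ℝ)| ≤ H) :
    (height P : ℝ) ≤ H := by
  by_cases hs : P.support.Nonempty
  · obtain ⟨i, -, h6⟩ := Finset.exists_mem_eq_sup _ hs (fun i => (P.coeff i).natAbs)
    unfold height
    rw [h6, Nat.cast_natAbs, Int.cast_abs]
    exact h i
  · rw [Finset.not_nonempty_iff_eq_empty] at hs
    unfold height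
    rw [hs, Finset.sup_empty]
    simpa using hH

lemma aeval_ne {z : ℝ} (hz : Transcendental ℚ z) {P : Polynomial ℤ} (hP : P ≠ 0) :
    Polynomial.aeval z P ≠ 0 := by
  intro h0
  apply hz
  refine ⟨P.map (Int.castRingHom ℚ), ?_, ?_⟩
  · rw [Ne, Polynomial.map_eq_zero_iff (RingHom.injective_int _)]
    exact hP
  · rw [Polynomial.aeval_def, Polynomial.eval₂_map]
    rw [Polynomial.aeval_def] at h0
    rw [← h0]
    congr 1

open Polynomial in
/-- transcendental numbers which are not U-numbers -/
theorem meas_of_not_unumber {z : ℝ} (hz : Transcendental ℚ z) (hU : ¬ UNumber z) :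
    Pool.Agent.TH456.TM.MeasT (z : ℂ) := by
  intro D
  unfold UNumber at hU
  push Not at hU
  obtain ⟨w, hw⟩ := hU D
  set T := {P : ℤ[X] | P.natDegree ≤ D ∧ 0 < |aeval z P| ∧
    |aeval z P| * (height P : ℝ) ^ w ≤ 1} with hT
  have hTf : T.Finite := hw
  obtain ⟨c, hc, hcT⟩ : ∃ c : ℝ, 0 < c ∧ ∀ P ∈ T, c ≤ |aeval z P| := by
    by_cases hne : T.Nonempty
    · obtain ⟨Q, hQ, hmin⟩ := Set.exists_min_image T (fun P => |aeval z P|) hTf hne
      exact ⟨|aeval z Q|, hQ.2.1, hmin⟩
    · exact ⟨1, one_pos, fun P hP => absurd ⟨P, hP⟩ hne⟩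
  refine ⟨w, min 1 c, Nat.cast_nonneg _, lt_min one_pos hc, fun P hP hPD H hH hPH => ?_⟩
  rw [← Pool.Agent.TH456.TM.abs_aeval, Real.rpow_natCast]
  have h1 := height_le (by linarith) hPH
  have hpos : 0 < |aeval z P| := abs_pos.2 (aeval_ne hz hP)
  by_cases hPT : P ∈ T
  · calc min 1 c ≤ c := min_le_right _ _
      _ ≤ |aeval z P| := hcT P hPT
      _ = 1 * |aeval z P| := (one_mul _).symm
      _ ≤ H ^ w * |aeval z P| := by
          gcongr
          exact one_le_pow₀ hH
  · have h2 : 1 < |aeval z P| * (height P : ℝ) ^ w := by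
      by_contra hcon
      push Not at hcon
      exact hPT ⟨hPD, hpos, hcon⟩
    calc min 1 c ≤ 1 := min_le_left _ _
      _ ≤ |aeval z P| * (height P : ℝ) ^ w := h2.le
      _ ≤ |aeval z P| * H ^ w := by gcongr
      _ = H ^ w * |aeval z P| := mul_comm _ _

/-- the sum and the product -/
theorem sum_prod {F : Subfield ℝ} {z : ℝ} (hz : Transcendental F z) (t : ℝ) :
    Transcendental F (t + z) ∨ Transcendental F (t * z) := by
  by_contra hcon
  unfold Transcendental at hcon hz
  push Not at hcon
  obtain ⟨h1, h2⟩ := hcon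
  apply hz
  have h4 : IsAlgebraic F (4 : ℝ) := isAlgebraic_algebraMap (4 : F)
  have h2' : IsAlgebraic F (2 : ℝ) := isAlgebraic_algebraMap (2 : F)
  have h3 : IsAlgebraic F ((t - z) ^ 2) := by
    have e : (t - z) ^ 2 = (t + z) ^ 2 - 4 * (t * z) := by ring
    rw [e]
    exact (h1.pow 2).sub (h4.mul h2)
  have h5 : IsAlgebraic F (t - z) := IsAlgebraic.of_pow two_pos h3
  have e : z = ((t + z) - (t - z)) * (2 : ℝ)⁻¹ := by ring
  rw [e]
  exact (h1.sub h5).mul h2'.inv

/-- sums with multiples -/
theorem sum_mul {F : Subfield ℝ} {z : ℝ} (hz : Transcendental F z) (t x y : ℝ)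
    (hx : IsAlgebraic F x) (hy : IsAlgebraic F y) (hxy : x ≠ y) :
    Transcendental F (t + x * z) ∨ Transcendental F (t + y * z) := by
  by_contra hcon
  unfold Transcendental at hcon hz
  push Not at hcon
  obtain ⟨h1, h2⟩ := hcon
  apply hz
  have hd : x - y ≠ 0 := sub_ne_zero.2 hxy
  have e : z = ((t + x * z) - (t + y * z)) * (x - y)⁻¹ := by
    rw [eq_mul_inv_iff_mul_eq₀ hd]
    ring
  rw [e]
  exact (h1.sub h2).mul (hx.sub hy).inv

/-- products with powers -/
theorem prod_pow {F : Subfield ℝ} {z : ℝ} (hz : Transcendental F z) (t : ℝ) (ht : t ≠ 0)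
    (j k : ℤ) (hjk : j ≠ k) : Transcendental F (t * z ^ j) ∨ Transcendental F (t * z ^ k) := by
  have hz0 : z ≠ 0 := by
    rintro rfl
    exact hz isAlgebraic_zero
  have key : ∀ j k : ℤ, j < k → IsAlgebraic F (t * z ^ j) → IsAlgebraic F (t * z ^ k) → False := by
    intro j k hjk h1 h2
    apply hz
    obtain ⟨m, hm⟩ : ∃ m : ℕ, k - j = m := ⟨(k - j).toNat, by omega⟩
    have hm0 : 0 < m := by omega
    have e : z ^ m = (t * z ^ k) * (t * z ^ j)⁻¹ := by
      have h3 : z ^ k = z ^ m * z ^ j := by
        rw [← zpow_natCast, ← hm, ← zpow_add₀ hz0]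
        congr 1
        ring
      have h4 : t * z ^ j ≠ 0 := mul_ne_zero ht (zpow_ne_zero _ hz0)
      rw [eq_mul_inv_iff_mul_eq₀ h4, h3]
      ring
    have h5 : IsAlgebraic F (z ^ m) := by
      rw [e]
      exact h2.mul h1.inv
    exact IsAlgebraic.of_pow hm0 h5
  by_contra hcon
  unfold Transcendental at hcon
  push Not at hcon
  rcases lt_or_gt_of_ne hjk with h1 | h1
  · exact key j k h1 hcon.1 hcon.2
  · exact key k j h1 hcon.2 hcon.1

/-- Let `S` be an infinite set of integers, `θ < 1` and `F = field S θ`.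

(1) If `θ ≥ 0`, then `F` contains every `x` which in some base has only `o(log N)` digits which are not
zero among the first `N`, as `N → ∞` in `S`.

(2) Any finitely many elements of `F` have simultaneous rational approximations of every order.

(3) Let `z` be `e`, `π`, the logarithm of a positive rational number `≠ 1` or any transcendental real
number which is not a U-number. Then `z` is transcendental over `F`; for every real `t` one of `t + z`,
`t z` is transcendental over `F`; for every real `t` at most one of the numbers `t + x z`, with `x`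
algebraic over `F`, is algebraic over `F`; for every real `t ≠ 0` at most one of the numbers `t z ^ k`,
`k ∈ ℤ`, is algebraic over `F`.

(4) One of `π + e`, `π e` is transcendental over `F`; at most one of the numbers `π + x e`, with `x`
algebraic over `F`, is algebraic over `F`. -/
theorem result (S : Set ℕ) (hS : S.Infinite) (θ : ℝ) (hθ : θ < 1) :
    (0 ≤ θ → ∀ (x : ℝ) (b : ℕ), 2 ≤ b →
      (∀ ε : ℝ, 0 < ε → ∃ N₀ : ℕ, ∀ N ∈ S, N₀ ≤ N → (nonzero b x N : ℝ) ≤ ε * Real.log N) →
      x ∈ field S θ) ∧
    (∀ s : Finset ℝ, (∀ x ∈ s, x ∈ field S θ) → ∀ w q₀ : ℕ, ∃ q : ℕ, q₀ ≤ q ∧ 1 ≤ q ∧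
      ∀ x ∈ s, ∃ p : ℤ, |(q : ℝ) * x - p| < 1 / (q : ℝ) ^ w) ∧
    (∀ z : ℝ, (z = Real.exp 1 ∨ z = Real.pi ∨ (∃ q : ℚ, 0 < q ∧ q ≠ 1 ∧ z = Real.log q) ∨
        (Transcendental ℚ z ∧ ¬ UNumber z)) →
      Transcendental (field S θ) z ∧
      (∀ t : ℝ, Transcendental (field S θ) (t + z) ∨ Transcendental (field S θ) (t * z)) ∧
      (∀ t x y : ℝ, IsAlgebraic (field S θ) x → IsAlgebraic (field S θ) y → x ≠ y →
        Transcendental (field S θ) (t + x * z) ∨ Transcendental (field S θ) (t + y * z)) ∧
      (∀ t : ℝ, t ≠ 0 → ∀ j k : ℤ, j ≠ k →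
        Transcendental (field S θ) (t * z ^ j) ∨ Transcendental (field S θ) (t * z ^ k))) ∧
    (Transcendental (field S θ) (Real.pi + Real.exp 1) ∨
      Transcendental (field S θ) (Real.pi * Real.exp 1)) ∧
    (∀ x y : ℝ, IsAlgebraic (field S θ) x → IsAlgebraic (field S θ) y → x ≠ y →
      Transcendental (field S θ) (Real.pi + x * Real.exp 1) ∨
        Transcendental (field S θ) (Real.pi + y * Real.exp 1)) := by
  have hsim := sim_field hS hθ
  have h3 : ∀ z : ℝ, (z = Real.exp 1 ∨ z = Real.pi ∨ (∃ q : ℚ, 0 < q ∧ q ≠ 1 ∧ z = Real.log q) ∨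
        (Transcendental ℚ z ∧ ¬ UNumber z)) → Transcendental (field S θ) z := by
    intro z hz
    refine Pool.Agent.Q163.LE.transc_of_measT hsim z ?_
    rcases hz with h | h | h | ⟨h1, h2⟩
    · exact Pool.Agent.R473.JC.measT_three z (Or.inl h)
    · exact Pool.Agent.R473.JC.measT_three z (Or.inr (Or.inl h))
    · exact Pool.Agent.R473.JC.measT_three z (Or.inr (Or.inr h))
    · exact meas_of_not_unumber h1 h2
  have he := h3 (Real.exp 1) (Or.inl rfl)
  refine ⟨fun h0 x b hb h => mem_of_nonzero h0 hb h, fun s hs w q₀ => hsim s hs w q₀,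
    fun z hz => ⟨h3 z hz, sum_prod (h3 z hz), fun t x y hx hy hxy =>
      sum_mul (h3 z hz) t x y hx hy hxy, fun t ht j k hjk => prod_pow (h3 z hz) t ht j k hjk⟩,
    sum_prod he Real.pi, fun x y hx hy hxy => sum_mul he Real.pi x y hx hy hxy⟩

end Pool.Agent.Results.MP_a49cf6_nt.PredictableFields
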