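import Pool.Agent.N743.Rat
import Pool.Agent.N743.Alg

/-!
# The scale dichotomy for the approximations of `π + e`, `π - e`, `π e` and `π / e`

A number is near at the scale `X` if some fraction with denominator at most `X ^ θ` lies within
`1 / X` of it (`RatNear`), or if some nonzero integer polynomial of degree at most `d` with
coefficients at most `X ^ θ` has at it a value at most `1 / X` (`AlgNear`). A rational number (an
algebraic number of degree at most `d`) is near at all large scales. For every real number `t`
different from `0`, `e`, `-e`, in particular for `t = π`, the four numbers `t + e`, `t - e`, `t e`,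
`t / e` satisfy the following dichotomy, where `M > 1` and `3 θ (M + 1) < 1` in the first case and `θ`
is small in the second one.

* At every large scale at most one of the four numbers is near.
* Either one of them is rational, then it is near at all large scales and the others are near at no
  large scale; or all four are irrational, and then every large scale `X` at which one of them is near
  is followed by a scale `Z ≥ X` such that only this one is near between `X` and `Z` and none of the
  four is near between `Z` and `Z ^ M`, and there are arbitrarily large such voids.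
* One of the numbers is rational if and only if at every large scale one of them is near.

The same holds with algebraic numbers of degree at most `d`.

The two theorems used, `Pool.Agent.N743.dichotomy_rat` and `Pool.Agent.N743.dichotomy_alg`, and the
joint measures of the pairs (`Pool/Agent/R356`, `Pool/Agent/R473`) are in the starting library.
-/

set_option autoImplicit false

namespace Pool.Agent.Results.MP_a49cf6_nt.ScaleDichotomy

open Pool.Agent.N743

theorem result :
    (∀ t : ℝ, t ≠ 0 → t ≠ Real.exp 1 → t ≠ -Real.exp 1 →
      (∀ θ M : ℝ, 0 < θ → 1 < M → 3 * θ * (M + 1) < 1 →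
        Dichotomy (fun i => IsRat (fourT t i)) (fun X i => RatNear θ X (fourT t i)) M) ∧
      ∀ (d : ℕ) (M : ℝ), 1 < M → ∃ θ₀ : ℝ, 0 < θ₀ ∧ ∀ θ : ℝ, 0 < θ → θ ≤ θ₀ →
        Dichotomy (fun i => AlgDeg d (fourT t i)) (fun X i => AlgNear d θ X (fourT t i)) M) ∧
    (∀ θ M : ℝ, 0 < θ → 1 < M → 3 * θ * (M + 1) < 1 →
      Dichotomy (fun i => IsRat (fourT Real.pi i)) (fun X i => RatNear θ X (fourT Real.pi i)) M) ∧
    ∀ (d : ℕ) (M : ℝ), 1 < M → ∃ θ₀ : ℝ, 0 < θ₀ ∧ ∀ θ : ℝ, 0 < θ → θ ≤ θ₀ →
      Dichotomy (fun i => AlgDeg d (fourT Real.pi i)) (fun X i => AlgNear d θ X (fourT Real.pi i))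
        M := by
  have key : ∀ t : ℝ, t ≠ 0 → t ≠ Real.exp 1 → t ≠ -Real.exp 1 →
      (∀ θ M : ℝ, 0 < θ → 1 < M → 3 * θ * (M + 1) < 1 →
        Dichotomy (fun i => IsRat (fourT t i)) (fun X i => RatNear θ X (fourT t i)) M) ∧
      ∀ (d : ℕ) (M : ℝ), 1 < M → ∃ θ₀ : ℝ, 0 < θ₀ ∧ ∀ θ : ℝ, 0 < θ → θ ≤ θ₀ →
        Dichotomy (fun i => AlgDeg d (fourT t i)) (fun X i => AlgNear d θ X (fourT t i)) M := by
    intro t h0 h1 h2
    refine ⟨fun θ M hθ hM1 hM => ?_, fun d M hM => ?_⟩
    · exact dichotomy_rat (fourT t) (four_rat t h0 h1 h2) θ M hθ hM1 hM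
    · exact dichotomy_alg (fourT t) (Pool.Agent.R473.JC.four_t t h0 h1 h2) d M hM
  have hpi := Real.pi_gt_three
  have he := Real.exp_one_lt_d9
  have he0 := Real.exp_pos 1
  have h := key Real.pi Real.pi_ne_zero (by intro h; linarith) (by intro h; linarith)
  exact ⟨key, h.1, h.2⟩

end Pool.Agent.Results.MP_a49cf6_nt.ScaleDichotomy
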